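import Pool.Agent.Helper98.SB.Sym

/-!
# Symbols of prime degree: bilinearity, the criterion R5, the determinant form
-/

set_option autoImplicit false

namespace Pool.Agent.Helper98.SB

open Polynomial Module Pool.Agent.Helper69.SB

universe u

section Main

variable {F : Type u} [Field F] {l : ℕ} {ζ : F}

theorem IsNm.symm_iff (hζ : IsPrimitiveRoot ζ l) (hl : l.Prime) {a b : F} (ha : a ≠ 0)
    (hb : b ≠ 0) : IsNm l a b ↔ IsNm l b a :=
  ⟨fun h => h.symm hζ hl hb ha, fun h => h.symm hζ hl ha hb⟩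

/-- multiplicativity in the first variable -/
theorem IsNm.mul_left (hζ : IsPrimitiveRoot ζ l) (hl : l.Prime) {a a' b : F} (ha : a ≠ 0)
    (ha' : a' ≠ 0) (hb : b ≠ 0) (h : IsNm l a b) (h' : IsNm l a' b) : IsNm l (a * a') b :=
  (((h.symm hζ hl hb ha).mul (h'.symm hζ hl hb ha'))).symm hζ hl (mul_ne_zero ha ha') hb

/-- products in both variables -/
theorem isNm_prod_prod (hζ : IsPrimitiveRoot ζ l) (hl : l.Prime) {ι κ : Type*} (s : Finset ι)
    (t : Finset κ) (f : ι → F) (g : κ → F) (hf : ∀ i ∈ s, f i ≠ 0) (hg : ∀ j ∈ t, g j ≠ 0)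
    (h : ∀ i ∈ s, ∀ j ∈ t, IsNm l (f i) (g j)) : IsNm l (∏ i ∈ s, f i) (∏ j ∈ t, g j) := by
  refine IsNm.prod t g fun j hj => ?_
  refine IsNm.symm hζ hl (Finset.prod_ne_zero_iff.2 hf) (hg j hj) ?_
  exact IsNm.prod s f fun i hi => (h i hi j hj).symm hζ hl (hg j hj) (hf i hi)

/-- the norm of the root -/
theorem isNm_root (hl : 0 < l) (a : F) : IsNm l a ((-1) ^ (l + 1) * a) := by
  have hm : (X ^ l - C a : F[X]).Monic := monic_X_pow_sub_C a hl.ne'
  have hdim : (AdjoinRoot.powerBasis' hm).dim = l := natDegree_X_pow_sub_C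
  refine ⟨(AdjoinRoot.powerBasis' hm).gen, ?_⟩
  rw [Algebra.PowerBasis.norm_gen_eq_coeff_zero_minpoly, hdim]
  have h1 : (AdjoinRoot.powerBasis' hm).gen = AdjoinRoot.root (X ^ l - C a : F[X]) := rfl
  rw [h1, AdjoinRoot.minpoly_root hm.ne_zero, hm.leadingCoeff, inv_one, C_1, mul_one, coeff_sub,
    coeff_C_zero, coeff_X_pow, if_neg hl.ne, zero_sub, pow_succ]
  ring

theorem isNm_self (hl : 0 < l) (a : F) {i : F} (hi : i ^ l = (-1) ^ (l + 1)) : IsNm l a a := by
  have h1 := (isNm_root hl a).mul (isNm_pow_self hl a i)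
  rw [hi, mul_right_comm, ← mul_pow] at h1
  simpa using h1

/-- **R5.** -/
theorem isNm_of_eigenvalue [NeZero l] (hζ : IsPrimitiveRoot ζ l) (hl : l.Prime) {a b : F}
    (ha : a ≠ 0) (hb : b ≠ 0) (z : Fin l → Fin l → F) (hz0 : z 0 0 = 0) (hz : z ≠ 0) (t : F)
    (h : ∀ (E : Type u) [Field E] [Algebra F E] (β : E), β ^ l = algebraMap F E b →
      ((m1 (algebraMap F E ζ) (algebraMap F E a) β (fun r s => algebraMap F E (z r s))).charpoly).eval
        (algebraMap F E t) = 0) : IsNm l a b ∧ IsNm l b a := by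
  have key : IsNm l b a := by
    by_cases h2 : ∃ c : F, c ^ l = b
    · obtain ⟨c, hc⟩ := h2
      refine isNm_of_lpow hζ hl.pos (fun h0 => hb ?_) hc a
      rw [← hc, h0, zero_pow hl.ne_zero]
    push Not at h2
    have hB : Irreducible (X ^ l - C b : F[X]) := X_pow_sub_C_irreducible_of_prime hl h2
    have : Fact (Irreducible (X ^ l - C b : F[X])) := ⟨hB⟩
    refine isNm_of_eig hζ hl ha hb hB z hz0 hz t ?_
    have h3 := h (Ek l b) (rt l b) rt_pow
    rw [Matrix.eval_charpoly] at h3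
    have h4 : Matrix.scalar (Fin l) (algebraMap F (Ek l b) t) -
        m1 (algebraMap F (Ek l b) ζ) (algebraMap F (Ek l b) a) (rt l b)
          (fun r s => algebraMap F (Ek l b) (z r s)) =
        -(m1 (algebraMap F (Ek l b) ζ) (algebraMap F (Ek l b) a) (rt l b)
          (fun r s => algebraMap F (Ek l b) (z r s)) -
          algebraMap F (Ek l b) t • (1 : Matrix (Fin l) (Fin l) (Ek l b))) := by
      rw [neg_sub]
      congr 1
      ext i j
      rw [Matrix.scalar_apply, Matrix.diagonal_apply, Matrix.smul_apply, Matrix.one_apply]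
      split_ifs
      · rw [smul_eq_mul, mul_one]
      · rw [smul_zero]
    rw [h4, Matrix.det_neg] at h3
    exact (mul_eq_zero.1 h3).resolve_left (pow_ne_zero _ (neg_ne_zero.2 one_ne_zero))
  exact ⟨key.symm hζ hl ha hb, key⟩

end Main

end Pool.Agent.Helper98.SB
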