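import Pool.Agent.Helper98.SB.Norm

/-!
# Symbols of prime degree: eigenspaces of semilinear maps
-/

set_option autoImplicit false

namespace Pool.Agent.Helper98.SB

open Polynomial Module

/-- the determinant of a semilinear map `x ↦ σ(x) S` on a subspace, `S ^ l = a` -/
theorem semilinear {E : Type*} [Field E] (σ : E →+* E) {n : Type*} [Fintype n] [DecidableEq n]
    {a : E} (l : ℕ) (hσ : ∀ x, σ^[l] x = x) (S : Matrix n n E)
    (hSσ : S.map σ = S) (hS : S ^ l = a • (1 : Matrix n n E)) (W : Submodule E (n → E))
    (hW : ∀ x ∈ W, Matrix.vecMul (fun i => σ (x i)) S ∈ W) :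
    ∃ d : E, ∏ i ∈ Finset.range l, σ^[i] d = a ^ finrank E W := by
  classical
  set k := finrank E W with hk
  let bW : Basis (Fin k) E W := finBasis E W
  let B : Matrix (Fin k) n E := fun i => (bW i : n → E)
  let M' : Matrix (Fin k) (Fin k) E := fun i j =>
    bW.repr ⟨Matrix.vecMul (fun r => σ (B i r)) S, hW _ (bW i).2⟩ j
  have hlin : ∀ C : Matrix (Fin k) (Fin k) E, C * B = 0 → C = 0 := by
    intro C hC
    ext i j
    have h1 : ∑ j, C i j • (bW j : n → E) = 0 := by
      ext r
      have h2 := congrFun (congrFun hC i) r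
      rw [Matrix.mul_apply] at h2
      rw [Finset.sum_apply]
      exact h2
    have h2 : ∑ j, C i j • bW j = 0 := by
      apply Subtype.ext
      rw [Submodule.coe_sum]
      simpa using h1
    have h3 := Fintype.linearIndependent_iff.1 bW.linearIndependent (fun j => C i j) h2 j
    exact h3
  have h0 : B.map σ * S = M' * B := by
    ext i r
    have h1 := bW.sum_repr ⟨Matrix.vecMul (fun r => σ (B i r)) S, hW _ (bW i).2⟩
    have h2 := congrArg (fun w : W => (w : n → E) r) h1
    simp only [Submodule.coe_sum, Submodule.coe_smul, Finset.sum_apply, Pi.smul_apply,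
      smul_eq_mul] at h2
    rw [Matrix.mul_apply, Matrix.mul_apply]
    exact h2.symm
  have hiter : ∀ m : ℕ, ∃ P : Matrix (Fin k) (Fin k) E,
      B.map (σ^[m]) * S ^ m = P * B ∧ P.det = ∏ i ∈ Finset.range m, σ^[i] M'.det := by
    intro m
    induction m with
    | zero =>
      refine ⟨1, ?_, ?_⟩
      · rw [pow_zero, Matrix.mul_one, Matrix.one_mul]
        ext i j
        simp
      · simp
    | succ m ih =>
      obtain ⟨P, hP, hPd⟩ := ih
      refine ⟨P.map σ * M', ?_, ?_⟩
      · have h1 : B.map (σ^[m + 1]) = (B.map (σ^[m])).map σ := by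
          ext i j
          simp only [Matrix.map_apply]
          rw [Function.iterate_succ_apply']
        have h2 : (S ^ m).map σ = S ^ m := by
          have : (S ^ m).map σ = (S.map σ) ^ m := by
            have := map_pow σ.mapMatrix S m
            exact this
          rw [this, hSσ]
        rw [h1, pow_succ, ← Matrix.mul_assoc]
        have h3 : (B.map (σ^[m])).map σ * S ^ m = (B.map (σ^[m]) * S ^ m).map σ := by
          rw [Matrix.map_mul, h2]
        rw [h3, hP, Matrix.map_mul, Matrix.mul_assoc, h0, Matrix.mul_assoc]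
      · rw [Matrix.det_mul, Finset.prod_range_succ']
        have h1 : (P.map σ).det = σ P.det := (RingHom.map_det σ P).symm
        rw [h1, hPd, map_prod]
        simp only [Function.iterate_succ_apply', Function.iterate_zero, id_eq]
  obtain ⟨P, hP, hPd⟩ := hiter l
  refine ⟨M'.det, ?_⟩
  rw [← hPd]
  have h1 : B.map (σ^[l]) = B := by
    ext i j
    exact hσ _
  rw [h1, hS, Matrix.mul_smul, Matrix.mul_one] at hP
  have h2 : P = a • (1 : Matrix (Fin k) (Fin k) E) := by
    rw [← sub_eq_zero]
    apply hlin
    rw [Matrix.sub_mul, ← hP, Matrix.smul_mul, Matrix.one_mul, sub_self]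
  rw [h2, Matrix.det_smul, Matrix.det_one, mul_one, Fintype.card_fin]

end Pool.Agent.Helper98.SB
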