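import Pool.Agent.Helper98.SB.Half

/-!
# Symbols of prime degree: the field `F(b ^ (1 / l))`
-/

set_option autoImplicit false

namespace Pool.Agent.Helper98.SB

open Polynomial Module

section Kum

variable {F : Type*} [Field F]

/-- `F[x] / (x ^ l - b)` -/
abbrev Ek (l : ℕ) (b : F) : Type _ := AdjoinRoot (X ^ l - C b : F[X])

/-- the root -/
noncomputable def rt (l : ℕ) (b : F) : Ek l b := AdjoinRoot.root _

variable {l : ℕ} {b : F}

theorem rt_pow : rt l b ^ l = algebraMap F (Ek l b) b := by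
  have h := AdjoinRoot.eval₂_root (X ^ l - C b : F[X])
  rw [eval₂_sub, eval₂_X_pow, eval₂_C, sub_eq_zero] at h
  exact h

/-- the automorphism `β ↦ ζ β` -/
noncomputable def sg (ζ : F) (hζ : ζ ^ l = 1) : Ek l b →ₐ[F] Ek l b :=
  AdjoinRoot.liftAlgHom _ (Algebra.ofId F (Ek l b)) (algebraMap F _ ζ * rt l b) (by
    have h1 : (Algebra.ofId F (Ek l b) : F →+* Ek l b) = algebraMap F (Ek l b) := rfl
    rw [eval₂_sub, eval₂_X_pow, eval₂_C, mul_pow, rt_pow, ← map_pow, hζ, map_one, one_mul,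
      sub_eq_zero]
    rfl)

theorem sg_rt (ζ : F) (hζ : ζ ^ l = 1) :
    sg ζ hζ (rt l b) = algebraMap F _ ζ * rt l b :=
  AdjoinRoot.liftAlgHom_root _ _ _ _

theorem pow_apply (φ : Ek l b →ₐ[F] Ek l b) (i : ℕ) (x : Ek l b) : (φ ^ i) x = φ^[i] x := by
  induction i with
  | zero => rfl
  | succ i ih =>
    rw [pow_succ', AlgHom.mul_apply, ih, Function.iterate_succ_apply']

theorem sg_iter_rt (ζ : F) (hζ : ζ ^ l = 1) (i : ℕ) :
    (sg ζ hζ)^[i] (rt l b) = algebraMap F _ (ζ ^ i) * rt l b := by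
  induction i with
  | zero => simp
  | succ i ih =>
    rw [Function.iterate_succ_apply', ih, map_mul, AlgHom.commutes, sg_rt, ← mul_assoc, ← map_mul,
      pow_succ]

theorem hom_ext {A : Type*} [CommRing A] [Algebra F A] {φ ψ : Ek l b →ₐ[F] A}
    (h : φ (rt l b) = ψ (rt l b)) : φ = ψ := AdjoinRoot.algHom_ext h

theorem sg_iter_l (ζ : F) (hζ : ζ ^ l = 1) (x : Ek l b) : (sg ζ hζ)^[l] x = x := by
  have h : (sg ζ hζ : Ek l b →ₐ[F] Ek l b) ^ l = AlgHom.id F _ := by
    apply hom_ext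
    rw [pow_apply, sg_iter_rt, hζ, map_one, one_mul]
    rfl
  rw [← pow_apply, h]
  rfl

theorem irreducible_of (hl : l.Prime) (hb : ∀ c : F, c ^ l ≠ b) :
    Irreducible (X ^ l - C b : F[X]) := X_pow_sub_C_irreducible_of_prime hl hb

theorem finrank_Ek (hl : 0 < l) : finrank F (Ek l b) = l := by
  have hm : (X ^ l - C b : F[X]).Monic := monic_X_pow_sub_C b hl.ne'
  have h := (AdjoinRoot.powerBasis' hm).finrank
  rw [h]
  exact natDegree_X_pow_sub_C

theorem norm_iter {ζ : F} (hζ : IsPrimitiveRoot ζ l) (hl : 0 < l) (hb0 : b ≠ 0)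
    (hb : Irreducible (X ^ l - C b : F[X])) (e : Ek l b) :
    algebraMap F (Ek l b) (Algebra.norm F e) =
      ∏ i ∈ Finset.range l, (sg ζ hζ.pow_eq_one)^[i] e := by
  have : Fact (Irreducible (X ^ l - C b : F[X])) := ⟨hb⟩
  have hm : (X ^ l - C b : F[X]).Monic := monic_X_pow_sub_C b hl.ne'
  have hdim : (AdjoinRoot.powerBasis' hm).dim = l := natDegree_X_pow_sub_C
  have h := norm_eq_prod (K := Ek l b) (AdjoinRoot.powerBasis' hm)
    (fun p => (sg ζ hζ.pow_eq_one) ^ (p : ℕ)) ?_ e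
  · rw [h, Finset.prod_range]
    rw [← (finCongr hdim).prod_comp]
    refine Finset.prod_congr rfl fun p _ => ?_
    rw [pow_apply]
    rfl
  · intro p q hpq
    have h1 : algebraMap F (Ek l b) (ζ ^ (p : ℕ)) * rt l b =
        algebraMap F (Ek l b) (ζ ^ (q : ℕ)) * rt l b := by
      rw [← sg_iter_rt ζ hζ.pow_eq_one, ← sg_iter_rt ζ hζ.pow_eq_one, ← pow_apply, ← pow_apply]
      exact hpq
    have h2 : rt l b ≠ 0 := by
      intro h0
      have h3 := rt_pow (l := l) (b := b)
      rw [h0, zero_pow hl.ne'] at h3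
      exact hb0 ((algebraMap F (Ek l b)).injective (by rw [← h3, map_zero]))
    have h3 := (algebraMap F (Ek l b)).injective (mul_right_cancel₀ h2 h1)
    apply Fin.ext
    exact hζ.pow_inj (lt_of_lt_of_eq p.2 hdim) (lt_of_lt_of_eq q.2 hdim) h3

/-- the norm of an element, as soon as a product of conjugates is in `F` -/
theorem isNm_of_iter {ζ : F} (hζ : IsPrimitiveRoot ζ l) (hl : 0 < l) (hb0 : b ≠ 0)
    (hb : Irreducible (X ^ l - C b : F[X])) (e : Ek l b) (c : F)
    (h : ∏ i ∈ Finset.range l, (sg ζ hζ.pow_eq_one)^[i] e = algebraMap F (Ek l b) c) :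
    IsNm l b c := by
  have : Fact (Irreducible (X ^ l - C b : F[X])) := ⟨hb⟩
  refine ⟨e, (algebraMap F (Ek l b)).injective ?_⟩
  rw [norm_iter hζ hl hb0 hb, h]

/-- **HALF.** -/
theorem half {ζ : F} (hζ : IsPrimitiveRoot ζ l) (hl : l.Prime) {a : F} (ha : a ≠ 0) (hb0 : b ≠ 0)
    (hb : Irreducible (X ^ l - C b : F[X])) (S : Matrix (Fin l) (Fin l) F)
    (hS : S ^ l = a • (1 : Matrix (Fin l) (Fin l) F)) (M : Matrix (Fin l) (Fin l) (Ek l b))
    (hM : S.map (algebraMap F (Ek l b)) * M =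
      M.map (sg ζ hζ.pow_eq_one) * S.map (algebraMap F (Ek l b)))
    (t : F) (hdet : (M - algebraMap F (Ek l b) t • (1 : Matrix (Fin l) (Fin l) (Ek l b))).det = 0)
    (hne : M ≠ algebraMap F (Ek l b) t • (1 : Matrix (Fin l) (Fin l) (Ek l b))) :
    IsNm l b a := by
  classical
  have : Fact (Irreducible (X ^ l - C b : F[X])) := ⟨hb⟩
  set σ : (Ek l b) →ₐ[F] (Ek l b) := sg ζ hζ.pow_eq_one with hσ
  set T : Matrix (Fin l) (Fin l) (Ek l b) := S.map (algebraMap F (Ek l b)) with hT
  let W : Submodule (Ek l b) (Fin l → (Ek l b)) :=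
    LinearMap.ker ((M - algebraMap F (Ek l b) t • (1 : Matrix (Fin l) (Fin l) (Ek l b))).vecMulLinear)
  have hWmem : ∀ x : Fin l → (Ek l b), x ∈ W ↔ Matrix.vecMul x M = algebraMap F (Ek l b) t • x := by
    intro x
    simp only [W, LinearMap.mem_ker, Matrix.vecMulLinear_apply]
    rw [Matrix.vecMul_sub, Matrix.vecMul_smul, Matrix.vecMul_one, sub_eq_zero]
  have hTS : T ^ l = algebraMap F (Ek l b) a • (1 : Matrix (Fin l) (Fin l) (Ek l b)) := by
    have h1 : T ^ l = (S ^ l).map (algebraMap F (Ek l b)) := by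
      have := map_pow (algebraMap F (Ek l b)).mapMatrix S l
      exact this.symm
    rw [h1, hS]
    ext i j
    rw [Matrix.map_apply, Matrix.smul_apply, Matrix.smul_apply, smul_eq_mul, smul_eq_mul, map_mul,
      Matrix.one_apply, Matrix.one_apply]
    split_ifs
    · rw [map_one]
    · rw [map_zero]
  have hTσ : T.map (σ : (Ek l b) →+* (Ek l b)) = T := by
    ext i j
    rw [Matrix.map_apply, hT, Matrix.map_apply]
    exact σ.commutes (S i j)
  obtain ⟨d, hd⟩ := semilinear (σ : (Ek l b) →+* (Ek l b)) l (fun x => sg_iter_l ζ hζ.pow_eq_one x) T hTσ hTS W (by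
      intro x hx
      rw [hWmem] at hx ⊢
      have h1 : Matrix.vecMul (fun i => σ (x i)) (M.map σ) =
          fun i => σ (Matrix.vecMul x M i) := by
        ext i
        simp only [Matrix.vecMul, dotProduct, map_sum, map_mul, Matrix.map_apply]
      rw [Matrix.vecMul_vecMul]
      have h2 : T * M = M.map σ * T := hM
      have h3 : Matrix.vecMul (fun i => (σ : (Ek l b) →+* (Ek l b)) (x i)) (T * M) =
          Matrix.vecMul (Matrix.vecMul (fun i => σ (x i)) (M.map σ)) T := by
        rw [h2, Matrix.vecMul_vecMul]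
        rfl
      rw [h3, h1, hx]
      have h4 : (fun i => σ ((algebraMap F (Ek l b) t • x) i)) =
          algebraMap F (Ek l b) t • (fun i => σ (x i)) := by
        ext i
        rw [Pi.smul_apply, Pi.smul_apply, smul_eq_mul, smul_eq_mul, map_mul, AlgHom.commutes]
      rw [h4, Matrix.smul_vecMul]
      rfl)
  -- the dimension
  have hk1 : W ≠ ⊥ := by
    obtain ⟨v, hv, hv0⟩ := Matrix.exists_vecMul_eq_zero_iff.2 hdet
    intro h0
    apply hv
    have : v ∈ W := by
      simp only [W, LinearMap.mem_ker, Matrix.vecMulLinear_apply]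
      exact hv0
    rw [h0, Submodule.mem_bot] at this
    exact this
  have hk2 : W ≠ ⊤ := by
    intro h0
    apply hne
    rw [← sub_eq_zero]
    ext i j
    have h1 : (Pi.single i (1 : (Ek l b)) : Fin l → (Ek l b)) ∈ W := by rw [h0]; trivial
    simp only [W, LinearMap.mem_ker, Matrix.vecMulLinear_apply] at h1
    have h2 := congrFun h1 j
    rw [Matrix.single_one_vecMul] at h2
    exact h2
  set k := finrank (Ek l b) W with hk
  have hkpos : 0 < k := by
    rw [hk, Module.finrank_pos_iff_exists_ne_zero]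
    obtain ⟨x, hx, hx0⟩ := Submodule.exists_mem_ne_zero_of_ne_bot hk1
    exact ⟨⟨x, hx⟩, fun h => hx0 (congrArg Subtype.val h)⟩
  have hklt : k < l := by
    have := Submodule.finrank_lt (s := W) hk2
    rwa [Module.finrank_fin_fun] at this
  have hcop : k.Coprime l := by
    rw [Nat.coprime_comm, Nat.Prime.coprime_iff_not_dvd hl]
    exact fun h => absurd (Nat.le_of_dvd hkpos h) (by omega)
  refine IsNm.of_pow hl.one_lt ha hcop ?_
  refine isNm_of_iter hζ hl.pos hb0 hb d (a ^ k) ?_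
  rw [map_pow]
  exact hd

end Kum

end Pool.Agent.Helper98.SB
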