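import Mathlib

/-!
# Symbols of prime degree: norms from `F[x] / (x ^ l - a)`
-/

set_option autoImplicit false

namespace Pool.Agent.Helper98.SB

open Polynomial Module

/-- the norm as product over embeddings of a power basis -/
theorem norm_eq_prod {F A K : Type*} [Field F] [CommRing A] [Algebra F A] [Field K] [Algebra F K]
    (pb : PowerBasis F A) (φ : Fin pb.dim → (A →ₐ[F] K))
    (hφ : Function.Injective (fun p => φ p pb.gen)) (e : A) :
    algebraMap F K (Algebra.norm F e) = ∏ p, φ p e := by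
  classical
  set V := Matrix.vandermonde (fun p => φ p pb.gen) with hV
  have h1 : V * (Algebra.leftMulMatrix pb.basis e).map (algebraMap F K) =
      Matrix.diagonal (fun p => φ p e) * V := by
    ext p s
    rw [Matrix.mul_apply, Matrix.diagonal_mul]
    simp only [hV, Matrix.vandermonde_apply, Matrix.map_apply]
    have h2 : ∑ r, Algebra.leftMulMatrix pb.basis e r s • pb.basis r = e * pb.basis s := by
      rw [← pb.basis.sum_repr (e * pb.basis s)]
      refine Finset.sum_congr rfl fun r _ => ?_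
      rw [Algebra.leftMulMatrix_eq_repr_mul]
    have h3 := congrArg (φ p) h2
    rw [map_sum, map_mul, pb.basis_eq_pow, map_pow] at h3
    rw [← h3]
    refine Finset.sum_congr rfl fun r _ => ?_
    rw [map_smul, pb.basis_eq_pow, map_pow, Algebra.smul_def, mul_comm]
  have h4 := congrArg Matrix.det h1
  rw [Matrix.det_mul, Matrix.det_mul, Matrix.det_diagonal, mul_comm] at h4
  have h5 : V.det ≠ 0 := by
    rw [hV]
    exact Matrix.det_vandermonde_ne_zero_iff.2 hφ
  have h6 := mul_right_cancel₀ h5 h4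
  rw [← h6, Algebra.norm_eq_matrix_det pb.basis, RingHom.map_det]
  rfl

section Nm

variable {F : Type*} [Field F]

/-- `b` is a norm from `F[x] / (x ^ l - a)` -/
def IsNm (l : ℕ) (a b : F) : Prop := ∃ e : AdjoinRoot (X ^ l - C a : F[X]), Algebra.norm F e = b

variable {l : ℕ}

theorem IsNm.mul {a b c : F} (h1 : IsNm l a b) (h2 : IsNm l a c) : IsNm l a (b * c) := by
  obtain ⟨e, he⟩ := h1
  obtain ⟨f, hf⟩ := h2
  exact ⟨e * f, by rw [map_mul, he, hf]⟩

theorem isNm_one (a : F) : IsNm l a 1 := ⟨1, map_one _⟩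

theorem IsNm.pow {a b : F} (h : IsNm l a b) (k : ℕ) : IsNm l a (b ^ k) := by
  induction k with
  | zero => rw [pow_zero]; exact isNm_one a
  | succ k ih => rw [pow_succ]; exact ih.mul h

theorem IsNm.prod {ι : Type*} {a : F} (s : Finset ι) (f : ι → F) (h : ∀ i ∈ s, IsNm l a (f i)) :
    IsNm l a (∏ i ∈ s, f i) := by
  classical
  induction s using Finset.induction_on with
  | empty => rw [Finset.prod_empty]; exact isNm_one a
  | insert i s hi ih =>
    rw [Finset.prod_insert hi]
    exact (h i (Finset.mem_insert_self i s)).mul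
      (ih fun j hj => h j (Finset.mem_insert_of_mem hj))

theorem isNm_pow_self (hl : 0 < l) (a c : F) : IsNm l a (c ^ l) := by
  refine ⟨algebraMap F _ c, ?_⟩
  have hm : (X ^ l - C a : F[X]).Monic := monic_X_pow_sub_C a hl.ne'
  rw [Algebra.norm_algebraMap_of_basis (AdjoinRoot.powerBasis' hm).basis, Fintype.card_fin]
  change c ^ (X ^ l - C a : F[X]).natDegree = c ^ l
  rw [natDegree_X_pow_sub_C]

theorem IsNm.inv (hl : 0 < l) {a b : F} (hb : b ≠ 0) (h : IsNm l a b) : IsNm l a b⁻¹ := by
  have h1 : b⁻¹ = b ^ (l - 1) * (b⁻¹) ^ l := by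
    obtain ⟨k, rfl⟩ : ∃ k, l = k + 1 := ⟨l - 1, by omega⟩
    rw [Nat.add_sub_cancel, pow_succ, ← mul_assoc, ← mul_pow, mul_inv_cancel₀ hb, one_pow, one_mul]
  rw [h1]
  exact (h.pow _).mul (isNm_pow_self hl a _)

theorem IsNm.cancel (hl : 0 < l) {a b c : F} (hc : c ≠ 0) (h : IsNm l a (b * c))
    (h1 : IsNm l a c) : IsNm l a b := by
  have := h.mul (h1.inv hl hc)
  rwa [mul_assoc, mul_inv_cancel₀ hc, mul_one] at this

/-- from a power prime to `l` -/
theorem IsNm.of_pow (hl : 1 < l) {a b : F} (hb : b ≠ 0) {k : ℕ} (hk : k.Coprime l)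
    (h : IsNm l a (b ^ k)) : IsNm l a b := by
  obtain ⟨u, -, hu⟩ := Nat.exists_mul_mod_eq_one_of_coprime hk hl
  obtain ⟨v, huv⟩ : ∃ v : ℕ, k * u = 1 + v * l := by
    refine ⟨k * u / l, ?_⟩
    have := Nat.mod_add_div (k * u) l
    rw [hu] at this
    rw [mul_comm _ l]
    exact this.symm
  have h1 := h.pow u
  rw [← pow_mul, huv, pow_add, pow_one, pow_mul] at h1
  exact h1.cancel (by omega) (pow_ne_zero _ (pow_ne_zero _ hb))
    (isNm_pow_self (by omega) a (b ^ v))

end Nm

end Pool.Agent.Helper98.SB
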