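import Pool.Agent.Helper98.SB.Kum
import Pool.Agent.Helper69.SB.Rep

/-!
# Symbols of prime degree: symmetry, and the eigenvalue criterion
-/

set_option autoImplicit false

namespace Pool.Agent.Helper98.SB

open Polynomial Module Pool.Agent.Helper69.SB

section Sym

variable {F : Type*} [Field F] {l : ℕ} {ζ : F}

/-- every element is a norm if `a` is an `l`-th power -/
theorem isNm_of_lpow (hζ : IsPrimitiveRoot ζ l) (hl : 0 < l) {a c : F} (hc : c ≠ 0)
    (ha : c ^ l = a) (b : F) : IsNm l a b := by
  have hm : (X ^ l - C a : F[X]).Monic := monic_X_pow_sub_C a hl.ne'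
  have hdim : (AdjoinRoot.powerBasis' hm).dim = l := natDegree_X_pow_sub_C
  have hinj : Function.Injective (fun p : Fin (AdjoinRoot.powerBasis' hm).dim =>
      ζ ^ (p : ℕ) * c) := by
    intro p q hpq
    exact Fin.ext (hζ.pow_inj (lt_of_lt_of_eq p.2 hdim) (lt_of_lt_of_eq q.2 hdim)
      (mul_right_cancel₀ hc hpq))
  let φ : Fin (AdjoinRoot.powerBasis' hm).dim → (AdjoinRoot (X ^ l - C a : F[X]) →ₐ[F] F) :=
    fun p => AdjoinRoot.liftAlgHom _ (Algebra.ofId F F) (ζ ^ (p : ℕ) * c) (by
      rw [eval₂_sub, eval₂_X_pow, eval₂_C, mul_pow, ← pow_mul, mul_comm (p : ℕ), pow_mul,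
        hζ.pow_eq_one, one_pow, one_mul, ha, sub_eq_zero]
      rfl)
  have hφ : ∀ p (g : F[X]), φ p (AdjoinRoot.mk _ g) = g.eval (ζ ^ (p : ℕ) * c) := fun p g => rfl
  have h0 : 0 < (AdjoinRoot.powerBasis' hm).dim := by rw [hdim]; exact hl
  let g : F[X] := Lagrange.interpolate Finset.univ
    (fun p : Fin (AdjoinRoot.powerBasis' hm).dim => ζ ^ (p : ℕ) * c)
    (fun p => if p = ⟨0, h0⟩ then b else 1)
  refine ⟨AdjoinRoot.mk _ g, ?_⟩
  have h := norm_eq_prod (K := F) (AdjoinRoot.powerBasis' hm) φ (by
    intro p q hpq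
    apply hinj
    have e1 : ∀ p, φ p (AdjoinRoot.powerBasis' hm).gen = ζ ^ (p : ℕ) * c := fun p => by
      have : (AdjoinRoot.powerBasis' hm).gen = AdjoinRoot.mk _ X := rfl
      rw [this, hφ, eval_X]
    have h2 := hpq
    simp only [e1] at h2
    exact h2) (AdjoinRoot.mk _ g)
  have h1 : algebraMap F F (Algebra.norm F (AdjoinRoot.mk (X ^ l - C a : F[X]) g)) =
      Algebra.norm F (AdjoinRoot.mk (X ^ l - C a : F[X]) g) := rfl
  rw [← h1, h, Finset.prod_eq_single (⟨0, h0⟩ : Fin (AdjoinRoot.powerBasis' hm).dim)]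
  · rw [hφ]
    have := Lagrange.eval_interpolate_at_node (s := Finset.univ)
      (v := fun p : Fin (AdjoinRoot.powerBasis' hm).dim => ζ ^ (p : ℕ) * c)
      (fun p => if p = ⟨0, h0⟩ then b else 1) hinj.injOn (Finset.mem_univ ⟨0, h0⟩)
    rw [this, if_pos rfl]
  · intro p _ hp
    rw [hφ]
    have := Lagrange.eval_interpolate_at_node (s := Finset.univ)
      (v := fun p : Fin (AdjoinRoot.powerBasis' hm).dim => ζ ^ (p : ℕ) * c)
      (fun p => if p = ⟨0, h0⟩ then b else 1) hinj.injOn (Finset.mem_univ p)
    rw [this, if_neg hp]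
  · intro h
    exact absurd (Finset.mem_univ _) h

theorem rt_indep {b : F} (hl : 0 < l) (c : Fin l → F)
    (h : ∑ s : Fin l, algebraMap F (Ek l b) (c s) * rt l b ^ (s : ℕ) = 0) : c = 0 := by
  have hm : (X ^ l - C b : F[X]).Monic := monic_X_pow_sub_C b hl.ne'
  have hdim : (AdjoinRoot.powerBasis' hm).dim = l := natDegree_X_pow_sub_C
  have h1 := Fintype.linearIndependent_iff.1 (AdjoinRoot.powerBasis' hm).basis.linearIndependent
    (fun p => c (finCongr hdim p)) (by
      rw [← h, ← (finCongr hdim).sum_comp]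
      refine Finset.sum_congr rfl fun p _ => ?_
      rw [PowerBasis.basis_eq_pow, Algebra.smul_def]
      rfl)
  ext s
  have := h1 ((finCongr hdim).symm s)
  rwa [Equiv.apply_symm_apply] at this

/-- the shift with a corner -/
def sh (l : ℕ) [NeZero l] {R : Type*} [CommRing R] (a : R) : Matrix (Fin l) (Fin l) R :=
  fun p q => if q = p + 1 then (if p < q then 1 else a) else 0

theorem sh_pow [NeZero l] (hl : 1 < l) {R : Type*} [CommRing R] (a : R) :
    sh l a ^ l = a • (1 : Matrix (Fin l) (Fin l) R) := by
  let e : ℕ → (Fin l → R) := fun n => a ^ (n / l) • Pi.single (Fin.ofNat l n) 1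
  have h1 : ∀ n, Matrix.vecMul (e n) (sh l a) = e (n + 1) := by
    intro n
    ext q
    simp only [e]
    rw [Matrix.smul_vecMul, Matrix.single_one_vecMul, Pi.smul_apply, Pi.smul_apply]
    change a ^ (n / l) • sh l a (Fin.ofNat l n) q = _
    unfold sh
    have h2 : Fin.ofNat l n + 1 = Fin.ofNat l (n + 1) := by
      apply Fin.ext
      simp [Fin.val_add, Fin.ofNat]
    rw [h2]
    by_cases hq : q = Fin.ofNat l (n + 1)
    · rw [if_pos hq, hq, Pi.single_eq_same]
      by_cases h3 : n % l + 1 < l
      · have h4 : (n + 1) % l = n % l + 1 := by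
          rw [Nat.add_mod, Nat.mod_eq_of_lt hl, Nat.mod_eq_of_lt h3]
        have h5 : (n + 1) / l = n / l := by
          have e1 := Nat.div_add_mod n l
          have e2 := Nat.div_add_mod (n + 1) l
          rw [h4] at e2
          have : l * ((n + 1) / l) = l * (n / l) := by omega
          exact Nat.eq_of_mul_eq_mul_left (by omega) this
        rw [if_pos, h5]
        rw [Fin.lt_def]
        change n % l < (n + 1) % l
        omega
      · have h3' : n % l + 1 = l := by
          have := Nat.mod_lt n (show 0 < l by omega)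
          omega
        have h4 : (n + 1) % l = 0 := by
          rw [Nat.add_mod, Nat.mod_eq_of_lt hl, h3', Nat.mod_self]
        have h5 : (n + 1) / l = n / l + 1 := by
          have e1 := Nat.div_add_mod n l
          have e2 := Nat.div_add_mod (n + 1) l
          rw [h4] at e2
          have : l * ((n + 1) / l) = l * (n / l + 1) := by
            rw [mul_add, mul_one]; omega
          exact Nat.eq_of_mul_eq_mul_left (by omega) this
        rw [if_neg, h5, pow_succ]
        · simp
        · rw [Fin.lt_def]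
          change ¬ n % l < (n + 1) % l
          omega
    · rw [if_neg hq, Pi.single_eq_of_ne hq]
      simp
  have h2 : ∀ m n, Matrix.vecMul (e n) (sh l a ^ m) = e (n + m) := by
    intro m
    induction m with
    | zero => intro n; rw [pow_zero, Matrix.vecMul_one, add_zero]
    | succ m ih =>
      intro n
      rw [pow_succ, ← Matrix.vecMul_vecMul, ih, h1, add_assoc]
  ext p q
  have h3 := congrFun (h2 l p) q
  have h4 : e p = Pi.single p 1 := by
    simp only [e]
    rw [Nat.div_eq_of_lt p.2, pow_zero, one_smul]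
    congr 1
    apply Fin.ext
    simp [Fin.ofNat, Nat.mod_eq_of_lt p.2]
  have h5 : e (p + l) = a • Pi.single p 1 := by
    simp only [e]
    rw [Nat.add_div_right _ (by omega), Nat.div_eq_of_lt p.2, zero_add, pow_one]
    congr 2
    apply Fin.ext
    simp [Fin.ofNat, Nat.mod_eq_of_lt p.2]
  rw [h4, h5, Matrix.single_one_vecMul] at h3
  change (sh l a ^ l) p q = _ at h3
  rw [h3, Pi.smul_apply, Matrix.smul_apply, Matrix.one_apply, Pi.single_apply]
  congr 1
  by_cases h6 : p = q
  · rw [if_pos h6, if_pos h6.symm]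
  · rw [if_neg h6, if_neg (fun h => h6 h.symm)]

/-- the shift and the first representation -/
theorem sh_m1 [NeZero l] (hl : 1 < l) {R : Type*} [CommRing R] (ζ a β : R) (hζ : ζ ^ l = 1)
    (z : Fin l → Fin l → R) :
    sh l a * m1 ζ a β z = m1 ζ a (ζ * β) z * sh l a := by
  have h1v : ((1 : Fin l) : ℕ) = 1 := by
    rw [Fin.val_one', Nat.mod_eq_of_lt hl]
  ext p q
  rw [Matrix.mul_apply, Matrix.mul_apply, Finset.sum_eq_single (p + 1),
    Finset.sum_eq_single (q - 1)]
  · unfold sh m1
    rw [if_pos (rfl : p + 1 = p + 1), if_pos (sub_add_cancel q 1).symm]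
    have e1 : q - (p + 1) = q - 1 - p := by abel
    have e2 : ζ ^ ((p + 1 : Fin l) : ℕ) * β = ζ ^ (p : ℕ) * (ζ * β) := by
      rw [pow_fin_add hζ, h1v, pow_one, mul_assoc]
    rw [e1, e2]
    have e3 : (if p < p + 1 then (1 : R) else a) * (if p + 1 ≤ q then 1 else a) =
        (if p ≤ q - 1 then 1 else a) * (if q - 1 < q then 1 else a) := by
      have hp1 : ((p + 1 : Fin l) : ℕ) = if (p : ℕ) + 1 < l then (p : ℕ) + 1 else 0 := by
        rw [Fin.val_add, h1v]
        split_ifs with h
        · exact Nat.mod_eq_of_lt h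
        · have : (p : ℕ) + 1 = l := by have := p.2; omega
          rw [this, Nat.mod_self]
      have hq1 : ((q - 1 : Fin l) : ℕ) = if (q : ℕ) = 0 then l - 1 else (q : ℕ) - 1 := by
        rw [Fin.val_sub, h1v]
        split_ifs with h
        · rw [h, add_zero]
          exact Nat.mod_eq_of_lt (by omega)
        · have : l - 1 + (q : ℕ) = l + ((q : ℕ) - 1) := by omega
          rw [this, Nat.add_mod_left]
          exact Nat.mod_eq_of_lt (by have := q.2; omega)
      have hp := p.2
      have hq := q.2
      simp only [Fin.lt_def, Fin.le_def, hp1, hq1]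
      by_cases c1 : (p : ℕ) + 1 < l
      · by_cases c2 : (q : ℕ) = 0
        · rw [if_pos c1, if_pos c2, if_pos (by omega), if_neg (by omega), if_pos (by omega),
            if_neg (by omega)]
        · rw [if_pos c1, if_neg c2, if_pos (by omega)]
          by_cases c3 : (p : ℕ) + 1 ≤ q
          · rw [if_pos c3, if_pos (by omega), if_pos (by omega)]
          · rw [if_neg c3, if_neg (by omega), if_pos (by omega)]
            ring
      · by_cases c2 : (q : ℕ) = 0
        · rw [if_neg c1, if_pos c2, if_neg (by omega), if_pos (by omega), if_pos (by omega),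
            if_neg (by omega)]
          ring
        · rw [if_neg c1, if_neg c2, if_neg (by omega), if_pos (by omega), if_neg (by omega),
            if_pos (by omega)]
    calc (if p < p + 1 then (1 : R) else a) * ((if p + 1 ≤ q then 1 else a) *
          xr z (q - 1 - p) (ζ ^ (p : ℕ) * (ζ * β)))
        = ((if p < p + 1 then (1 : R) else a) * (if p + 1 ≤ q then 1 else a)) *
          xr z (q - 1 - p) (ζ ^ (p : ℕ) * (ζ * β)) := by ring
      _ = _ := by rw [e3]; ring
  · intro r _ hr
    unfold sh
    rw [if_neg, mul_zero]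
    intro h
    apply hr
    rw [h, add_sub_cancel_right]
  · intro h
    exact absurd (Finset.mem_univ _) h
  · intro r _ hr
    unfold sh
    rw [if_neg hr, zero_mul]
  · intro h
    exact absurd (Finset.mem_univ _) h

/-- **EIG.** an element of the symbol algebra which is not scalar and has an eigenvalue in `F` -/
theorem isNm_of_eig [NeZero l] (hζ : IsPrimitiveRoot ζ l) (hl : l.Prime) {a b : F} (ha : a ≠ 0)
    (hb0 : b ≠ 0) (hb : Irreducible (X ^ l - C b : F[X])) (z : Fin l → Fin l → F)
    (hz0 : z 0 0 = 0) (hz : z ≠ 0) (t : F)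
    (hdet : (m1 (algebraMap F (Ek l b) ζ) (algebraMap F (Ek l b) a) (rt l b)
      (fun r s => algebraMap F (Ek l b) (z r s)) -
      algebraMap F (Ek l b) t • (1 : Matrix (Fin l) (Fin l) (Ek l b))).det = 0) :
    IsNm l b a := by
  refine half hζ hl ha hb0 hb (sh l a) (sh_pow hl.one_lt a) _ ?_ t hdet ?_
  · have h1 : (sh l a).map (algebraMap F (Ek l b)) = sh l (algebraMap F (Ek l b) a) := by
      ext p q
      rw [Matrix.map_apply]
      unfold sh
      split_ifs
      · rw [map_one]
      · rfl
      · rw [map_zero]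
    have h2 : (m1 (algebraMap F (Ek l b) ζ) (algebraMap F (Ek l b) a) (rt l b)
        (fun r s => algebraMap F (Ek l b) (z r s))).map (sg ζ hζ.pow_eq_one) =
        m1 (algebraMap F (Ek l b) ζ) (algebraMap F (Ek l b) a)
          (algebraMap F (Ek l b) ζ * rt l b) (fun r s => algebraMap F (Ek l b) (z r s)) := by
      have := map_m1 ((sg ζ hζ.pow_eq_one : Ek l b →ₐ[F] Ek l b) : Ek l b →+* Ek l b) (algebraMap F (Ek l b) ζ)
        (algebraMap F (Ek l b) a) (rt l b) (fun r s => algebraMap F (Ek l b) (z r s))
      have e1 : ∀ x : F, ((sg ζ hζ.pow_eq_one : Ek l b →ₐ[F] Ek l b) : Ek l b →+* Ek l b) (algebraMap F (Ek l b) x) =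
        algebraMap F (Ek l b) x := fun x => (sg ζ hζ.pow_eq_one : Ek l b →ₐ[F] Ek l b).commutes x
      have e2 : ((sg ζ hζ.pow_eq_one : Ek l b →ₐ[F] Ek l b) : Ek l b →+* Ek l b) (rt l b) =
        algebraMap F (Ek l b) ζ * rt l b := sg_rt ζ hζ.pow_eq_one
      rw [e1, e1, e2] at this
      simp only [e1] at this
      exact this
    rw [h1, h2]
    exact sh_m1 hl.one_lt _ _ _ (by rw [← map_pow, hζ.pow_eq_one, map_one]) _
  · intro h
    apply hz
    have key : ∀ r : Fin l, ∑ s : Fin l, algebraMap F (Ek l b) (z r s) * rt l b ^ (s : ℕ) =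
        if r = 0 then algebraMap F (Ek l b) t else 0 := by
      intro r
      have h1 := congrFun (congrFun h 0) r
      unfold m1 xr at h1
      rw [if_pos (Fin.zero_le r), one_mul, sub_zero, Matrix.smul_apply, Matrix.one_apply] at h1
      have h2 : ((0 : Fin l) : ℕ) = 0 := rfl
      rw [h2, pow_zero, one_mul] at h1
      rw [h1]
      by_cases hr : r = 0
      · rw [if_pos hr, if_pos hr.symm, smul_eq_mul, mul_one]
      · rw [if_neg hr, if_neg (fun h => hr h.symm), smul_zero]
    have hr : ∀ r : Fin l, (fun s => z r s - if r = 0 ∧ s = 0 then t else 0) = 0 := by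
      intro r
      apply rt_indep (b := b) hl.pos
      have h1 : ∀ s : Fin l, algebraMap F (Ek l b) (z r s - if r = 0 ∧ s = 0 then t else 0) *
          rt l b ^ (s : ℕ) = algebraMap F (Ek l b) (z r s) * rt l b ^ (s : ℕ) -
          algebraMap F (Ek l b) (if r = 0 ∧ s = 0 then t else 0) * rt l b ^ (s : ℕ) := by
        intro s
        rw [map_sub, sub_mul]
      rw [Finset.sum_congr rfl fun s _ => h1 s, Finset.sum_sub_distrib, key r, sub_eq_zero]
      symm
      rw [Finset.sum_eq_single (0 : Fin l)]
      · have h2 : ((0 : Fin l) : ℕ) = 0 := rfl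
        rw [h2, pow_zero, mul_one]
        by_cases hr : r = 0
        · rw [if_pos ⟨hr, rfl⟩, if_pos hr]
        · rw [if_neg (fun h => hr h.1), if_neg hr, map_zero]
      · intro s _ hs
        rw [if_neg (fun h => hs h.2), map_zero, zero_mul]
      · intro h
        exact absurd (Finset.mem_univ _) h
    have ht : t = 0 := by
      have := congrFun (hr 0) 0
      simp only [true_and, if_true, hz0, zero_sub, Pi.zero_apply, neg_eq_zero] at this
      exact this
    ext r s
    have := congrFun (hr r) s
    simp only [ht, ite_self, sub_zero, Pi.zero_apply] at this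
    exact this

/-- an operator of finite order with the commutation rule gives the symmetric norm -/
theorem IsNm.symm (hζ : IsPrimitiveRoot ζ l) (hl : l.Prime) {a b : F} (ha : a ≠ 0) (hb : b ≠ 0)
    (h : IsNm l b a) : IsNm l a b := by
  classical
  by_cases h1 : ∃ c : F, c ^ l = a
  · obtain ⟨c, hc⟩ := h1
    refine isNm_of_lpow hζ hl.pos (fun h0 => ha ?_) hc b
    rw [← hc, h0, zero_pow hl.ne_zero]
  by_cases h2 : ∃ c : F, c ^ l = b
  · obtain ⟨c, rfl⟩ := h2
    exact isNm_pow_self hl.pos a c
  push Not at h1 h2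
  have hA : Irreducible (X ^ l - C a : F[X]) := X_pow_sub_C_irreducible_of_prime hl h1
  have hB : Irreducible (X ^ l - C b : F[X]) := X_pow_sub_C_irreducible_of_prime hl h2
  have : Fact (Irreducible (X ^ l - C a : F[X])) := ⟨hA⟩
  have : Fact (Irreducible (X ^ l - C b : F[X])) := ⟨hB⟩
  obtain ⟨y, hy⟩ := h
  have hm : (X ^ l - C b : F[X]).Monic := monic_X_pow_sub_C b hl.ne_zero
  have hdim : (AdjoinRoot.powerBasis' hm).dim = l := natDegree_X_pow_sub_C
  let B : Basis (Fin l) F (Ek l b) := (AdjoinRoot.powerBasis' hm).basis.reindex (finCongr hdim)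
  let σ : Ek l b →ₐ[F] Ek l b := sg ζ hζ.pow_eq_one
  -- the operators
  let J : Module.End F (Ek l b) := LinearMap.mulLeft F (rt l b)
  let I : Module.End F (Ek l b) := LinearMap.mulLeft F y ∘ₗ σ.toLinearMap
  have hJ : J ^ l = b • (1 : Module.End F (Ek l b)) := by
    ext v
    have h3 : (J ^ l) v = rt l b ^ l * v := by
      have h4 : ∀ (m : ℕ) (v : Ek l b), (J ^ m) v = rt l b ^ m * v := by
        intro m
        induction m with
        | zero => intro v; simp
        | succ m ih =>
          intro v
          rw [pow_succ', Module.End.mul_apply, ih, pow_succ']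
          change rt l b * (rt l b ^ m * v) = _
          ring
      exact h4 l v
    rw [h3, rt_pow, LinearMap.smul_apply, Module.End.one_apply, Algebra.smul_def]
  have hIv : ∀ v, I v = y * σ v := fun v => rfl
  have hJv : ∀ v, J v = rt l b * v := fun v => rfl
  have hIm : ∀ (m : ℕ) v, (I ^ m) v = (∏ i ∈ Finset.range m, σ^[i] y) * σ^[m] v := by
    intro m
    induction m with
    | zero => intro v; simp
    | succ m ih =>
      intro v
      rw [pow_succ', Module.End.mul_apply, ih, hIv, map_mul, map_prod, Finset.prod_range_succ',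
        Function.iterate_succ_apply']
      simp only [Function.iterate_succ_apply', Function.iterate_zero, id_eq]
      ring
  have hI : I ^ l = a • (1 : Module.End F (Ek l b)) := by
    ext v
    rw [hIm, LinearMap.smul_apply, Module.End.one_apply, Algebra.smul_def, ← hy,
      norm_iter hζ hl.pos hb hB y]
    congr 1
    exact sg_iter_l ζ hζ.pow_eq_one v
  have hIJ : I * J = ζ • (J * I) := by
    ext v
    rw [LinearMap.smul_apply, Module.End.mul_apply, Module.End.mul_apply, hIv, hJv, hIv, hJv,
      map_mul, Algebra.smul_def]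
    have h3 : σ (rt l b) = algebraMap F _ ζ * rt l b := sg_rt ζ hζ.pow_eq_one
    rw [h3]
    ring
  -- matrices
  let Φ := LinearMap.toMatrixAlgEquiv B
  set S : Matrix (Fin l) (Fin l) F := Φ J with hS
  set A : Matrix (Fin l) (Fin l) F := Φ I with hAd
  have hSl : S ^ l = b • (1 : Matrix (Fin l) (Fin l) F) := by
    rw [hS, ← map_pow, hJ, map_smul, map_one]
  have hAl : A ^ l = a • (1 : Matrix (Fin l) (Fin l) F) := by
    rw [hAd, ← map_pow, hI, map_smul, map_one]
  have hAS : A * S = ζ • (S * A) := by
    rw [hAd, hS, ← map_mul, hIJ, map_smul, map_mul]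
  -- the matrix over `F(a ^ (1 / l))`
  have hα : rt l a ≠ 0 := by
    intro h0
    have h3 := rt_pow (l := l) (b := a)
    rw [h0, zero_pow hl.ne_zero] at h3
    exact ha ((algebraMap F (Ek l a)).injective (by rw [← h3, map_zero]))
  let g : F →+* Ek l a := algebraMap F (Ek l a)
  let M : Matrix (Fin l) (Fin l) (Ek l a) := (rt l a)⁻¹ • A.map g
  have hMl : M ^ l = 1 := by
    have h3 : (A.map g) ^ l = (A ^ l).map g := (map_pow g.mapMatrix A l).symm
    have h4 : (a • (1 : Matrix (Fin l) (Fin l) F)).map g =
        g a • (1 : Matrix (Fin l) (Fin l) (Ek l a)) := by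
      ext i j
      rw [Matrix.map_apply, Matrix.smul_apply, Matrix.smul_apply, smul_eq_mul, smul_eq_mul,
        map_mul, Matrix.one_apply, Matrix.one_apply]
      split_ifs
      · rw [map_one]
      · rw [map_zero]
    simp only [M]
    rw [_root_.smul_pow, h3, hAl, h4, smul_smul, inv_pow, rt_pow, inv_mul_cancel₀, one_smul]
    exact (map_ne_zero g).2 ha
  obtain ⟨t, ht⟩ : ∃ t : F, (M - g t • (1 : Matrix (Fin l) (Fin l) (Ek l a))).det = 0 := by
    by_contra hcon
    push Not at hcon
    have h3 : (X ^ l - 1 : F[X]) = ∏ t ∈ nthRootsFinset l (1 : F), (X - C t) :=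
      X_pow_sub_one_eq_prod hl.pos hζ
    have h4 : ∀ s : Finset F, (aeval M (∏ t ∈ s, (X - C t : F[X]))).det =
        ∏ t ∈ s, (M - g t • (1 : Matrix (Fin l) (Fin l) (Ek l a))).det := by
      intro s
      induction s using Finset.induction_on with
      | empty => simp
      | insert t s hts ih =>
        rw [Finset.prod_insert hts, Finset.prod_insert hts, map_mul, Matrix.det_mul, ih]
        congr 2
        rw [map_sub, aeval_X, aeval_C]
        congr 1
        ext i j
        rw [Matrix.algebraMap_matrix_apply, Matrix.smul_apply, Matrix.one_apply]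
        split_ifs
        · rw [smul_eq_mul, mul_one]
        · rw [smul_zero]
    have h5 := h4 (nthRootsFinset l (1 : F))
    rw [← h3, map_sub, map_pow, aeval_X, map_one, hMl, sub_self] at h5
    have : Nonempty (Fin l) := ⟨⟨0, hl.pos⟩⟩
    rw [Matrix.det_zero] at h5
    exact (Finset.prod_ne_zero_iff.2 fun t _ => hcon t) h5.symm
  have hSg : ∀ (P Q : Matrix (Fin l) (Fin l) F), P.map g * Q.map g = (P * Q).map g :=
    fun P Q => (Matrix.map_mul).symm
  have hASg : A.map g * S.map g = g ζ • (S.map g * A.map g) := by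
    rw [hSg, hSg, hAS]
    ext i j
    rw [Matrix.map_apply, Matrix.smul_apply, Matrix.smul_apply, Matrix.map_apply, smul_eq_mul,
      smul_eq_mul, map_mul]
  have hζ0 : g ζ ≠ 0 := (map_ne_zero g).2 (hζ.ne_zero hl.ne_zero)
  refine half hζ hl hb ha hA S hSl M ?_ t ht ?_
  · have h3 : M.map (sg ζ hζ.pow_eq_one) = (g ζ * rt l a)⁻¹ • A.map g := by
      ext i j
      simp only [M]
      rw [Matrix.map_apply, Matrix.smul_apply, Matrix.smul_apply, smul_eq_mul, smul_eq_mul,
        map_mul, map_inv₀, sg_rt, Matrix.map_apply]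
      congr 1
      exact (sg ζ hζ.pow_eq_one : Ek l a →ₐ[F] Ek l a).commutes (A i j)
    rw [h3]
    change S.map g * ((rt l a)⁻¹ • A.map g) = _
    rw [Matrix.mul_smul, Matrix.smul_mul]
    change _ = (g ζ * rt l a)⁻¹ • (A.map g * S.map g)
    rw [hASg, smul_smul]
    congr 1
    field_simp
  · intro h3
    have h4 : A.map g = (rt l a * g t) • (1 : Matrix (Fin l) (Fin l) (Ek l a)) := by
      have h5 : rt l a • M = A.map g := by
        simp only [M]
        rw [smul_smul, mul_inv_cancel₀ hα, one_smul]
      rw [← h5, h3, smul_smul]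
    have h5 : A.map g * S.map g = S.map g * A.map g := by
      rw [h4, Matrix.smul_mul, Matrix.mul_smul, Matrix.one_mul, Matrix.mul_one]
    rw [hASg] at h5
    have h6 : (g ζ - 1) • (S.map g * A.map g) = 0 := by
      rw [sub_smul, h5, one_smul, sub_self]
    have h7 : g ζ - 1 ≠ 0 := by
      rw [sub_ne_zero]
      intro h8
      have h9 : ζ = 1 := g.injective (by rw [h8, map_one])
      exact hζ.ne_one hl.one_lt h9
    have h8 : S.map g * A.map g = 0 := (smul_eq_zero.1 h6).resolve_left h7
    rw [hSg] at h8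
    have h9 : S * A = 0 := by
      ext i j
      have := congrFun (congrFun h8 i) j
      rw [Matrix.map_apply] at this
      exact g.injective (by rw [this, Matrix.zero_apply, Matrix.zero_apply, map_zero])
    have h10 : S.det ≠ 0 := by
      intro h0
      have := congrArg Matrix.det hSl
      rw [Matrix.det_pow, h0, zero_pow hl.ne_zero, Matrix.det_smul, Matrix.det_one, mul_one,
        Fintype.card_fin] at this
      exact pow_ne_zero l hb this.symm
    have h11 : A.det ≠ 0 := by
      intro h0
      have := congrArg Matrix.det hAl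
      rw [Matrix.det_pow, h0, zero_pow hl.ne_zero, Matrix.det_smul, Matrix.det_one, mul_one,
        Fintype.card_fin] at this
      exact pow_ne_zero l ha this.symm
    have h12 := congrArg Matrix.det h9
    have : Nonempty (Fin l) := ⟨⟨0, hl.pos⟩⟩
    rw [Matrix.det_mul, Matrix.det_zero] at h12
    exact (mul_ne_zero h10 h11) h12

end Sym

end Pool.Agent.Helper98.SB
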